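import Mathlib
import Pool.Agent.Helper2.Suz4

set_option autoImplicit false

namespace Pool.Agent.Results.MP_7e36da_co.SuzukiOval

open Configuration Matrix

/-- The field with `q = 2 ^ (2 * m + 1)` elements. -/
abbrev Fq (m : ℕ) : Type := GaloisField 2 (2 * m + 1)

/-- The automorphism `x ↦ x ^ (2 ^ (m + 1))` of the field with `2 ^ (2 * m + 1)` elements,
whose square is `x ↦ x ^ 2`. -/
noncomputable def th (m : ℕ) (x : Fq m) : Fq m := x ^ (2 ^ (m + 1))

/-- Suzuki's matrix `S(a, b)`. -/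
noncomputable def matS (m : ℕ) (a b : Fq m) : Matrix (Fin 4) (Fin 4) (Fq m) :=
  !![1, 0, 0, 0;
     a, 1, 0, 0;
     b, th m a, 1, 0;
     a ^ 2 * th m a + a * b + th m b, a * th m a + b, a, 1]

/-- Suzuki's diagonal matrix `M(κ)`. -/
noncomputable def matM (m : ℕ) (κ : Fq m) : Matrix (Fin 4) (Fin 4) (Fq m) :=
  !![κ ^ (1 + 2 ^ m), 0, 0, 0;
     0, κ ^ (2 ^ m), 0, 0;
     0, 0, (κ ^ (2 ^ m))⁻¹, 0;
     0, 0, 0, (κ ^ (1 + 2 ^ m))⁻¹]

/-- Suzuki's matrix `T`. -/
noncomputable def matT (m : ℕ) : Matrix (Fin 4) (Fin 4) (Fq m) :=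
  !![0, 0, 0, 1;
     0, 0, 1, 0;
     0, 1, 0, 0;
     1, 0, 0, 0]

/-- The Suzuki group `Sz(q)`, `q = 2 ^ (2 * m + 1)`: the subgroup of `GL(4, q)` generated by all
`S(a, b)`, all `M(κ)` with `κ ≠ 0`, and `T`. -/
noncomputable def SuzukiGroup (m : ℕ) : Subgroup (GL (Fin 4) (Fq m)) :=
  Subgroup.closure {g | (∃ a b, (g : Matrix (Fin 4) (Fin 4) (Fq m)) = matS m a b) ∨
    (∃ κ, κ ≠ 0 ∧ (g : Matrix (Fin 4) (Fin 4) (Fq m)) = matM m κ) ∨
    (g : Matrix (Fin 4) (Fin 4) (Fq m)) = matT m}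

/-- A group of permutations of the points of a plane is a collineation group when each of its
elements maps every line onto a line. -/
def IsCollineationGroup {P : Type} (L : Type) [Membership P L] (Γ : Subgroup (Equiv.Perm P)) :
    Prop :=
  ∀ γ ∈ Γ, ∀ l : L, ∃ l' : L, ∀ p : P, p ∈ l ↔ γ p ∈ l'

/-- An oval of a plane of order `n`: a set of `n + 1` points, no three of them collinear. -/
def IsOval {P : Type} (L : Type) [Membership P L] [ProjectivePlane P L] (o : Set P) : Prop :=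
  o.Finite ∧ o.ncard = ProjectivePlane.order P L + 1 ∧
    ∀ a ∈ o, ∀ b ∈ o, ∀ c ∈ o, a ≠ b → a ≠ c → b ≠ c → ¬ ∃ l : L, a ∈ l ∧ b ∈ l ∧ c ∈ l

/-- A tangent of a point set: a line meeting it in exactly one point. -/
def IsTangent {P L : Type} [Membership P L] (o : Set P) (l : L) : Prop :=
  ∃! p : P, p ∈ o ∧ p ∈ l

/-- `k` is the knot of `o`: it is the only point lying on all tangents of `o`. -/
def IsKnot {P : Type} (L : Type) [Membership P L] (o : Set P) (k : P) : Prop :=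
  ∀ p : P, p = k ↔ ∀ l : L, IsTangent o l → p ∈ l

/-- `Γ` is doubly transitive on `o`. -/
def DoublyTransitiveOn {P : Type} (Γ : Subgroup (Equiv.Perm P)) (o : Set P) : Prop :=
  ∀ a ∈ o, ∀ b ∈ o, ∀ c ∈ o, ∀ d ∈ o, a ≠ b → c ≠ d → ∃ γ ∈ Γ, γ a = c ∧ γ b = d

/-- `Γ` acts in oval fashion: it fixes a point `k`, and some point orbit of `Γ` is an oval with
knot `k` on which `Γ` acts doubly transitively. -/
def ActsInOvalFashion {P : Type} (L : Type) [Membership P L] [ProjectivePlane P L]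
    (Γ : Subgroup (Equiv.Perm P)) : Prop :=
  ∃ (k : P) (o : Set P), (∀ γ ∈ Γ, γ k = k) ∧ (∃ x : P, o = {p | ∃ γ ∈ Γ, γ x = p}) ∧
    IsOval L o ∧ IsKnot L o k ∧ DoublyTransitiveOn Γ o

/-- the automorphism as a ring homomorphism -/
noncomputable def thHom (m : ℕ) : Fq m →+* Fq m := iterateFrobenius (Fq m) 2 (m + 1)

theorem thHom_apply (m : ℕ) (x : Fq m) : thHom m x = th m x := iterateFrobenius_def _ _ _

theorem card_Fq (m : ℕ) : Nat.card (Fq m) = 2 ^ (2 * m + 1) := GaloisField.card 2 _ (by omega)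

theorem pow_card_Fq (m : ℕ) (x : Fq m) : x ^ (2 ^ (2 * m + 1)) = x := by
  have := Fintype.ofFinite (Fq m)
  rw [← card_Fq m, Nat.card_eq_fintype_card, FiniteField.pow_card]

theorem thHom_sq (m : ℕ) (x : Fq m) : thHom m (thHom m x) = x ^ 2 := by
  rw [thHom_apply, thHom_apply, th, th, ← pow_mul, ← pow_add]
  have : m + 1 + (m + 1) = (2 * m + 1) + 1 := by ring
  rw [this, pow_succ, pow_mul, pow_card_Fq]

theorem thHom_pow (m : ℕ) (κ : Fq m) : thHom m (κ ^ (2 ^ m)) = κ := by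
  rw [thHom_apply, th, ← pow_mul, ← pow_add]
  have : m + (m + 1) = 2 * m + 1 := by ring
  rw [this, pow_card_Fq]

theorem pow_thHom (m : ℕ) (κ : Fq m) : (thHom m κ) ^ (2 ^ m) = κ := by
  rw [thHom_apply, th, ← pow_mul, ← pow_add]
  have : m + 1 + m = 2 * m + 1 := by ring
  rw [this, pow_card_Fq]

theorem matS_eq (m : ℕ) (a b : Fq m) : matS m a b = Pool.Agent.Helper2.Suz.matS (thHom m) a b := by
  simp only [matS, Pool.Agent.Helper2.Suz.matS, thHom_apply]

theorem matM_eq (m : ℕ) (κ : Fq m) :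
    matM m κ = Pool.Agent.Helper2.Suz.matM (thHom m) (κ ^ (2 ^ m)) := by
  simp only [matM, Pool.Agent.Helper2.Suz.matM, thHom_pow, pow_add, pow_one]

theorem suzuki_eq (m : ℕ) : SuzukiGroup m = Pool.Agent.Helper2.Suz.Sz (thHom m) := by
  unfold SuzukiGroup Pool.Agent.Helper2.Suz.Sz
  congr 1
  ext g
  constructor
  · rintro (⟨a, b, h⟩ | ⟨κ, hκ, h⟩ | h)
    · exact Or.inl ⟨a, b, by rw [h, matS_eq]⟩
    · exact Or.inr (Or.inl ⟨κ ^ (2 ^ m), pow_ne_zero _ hκ, by rw [h, matM_eq]⟩)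
    · exact Or.inr (Or.inr h)
  · rintro (⟨a, b, h⟩ | ⟨μ, hμ, h⟩ | h)
    · exact Or.inl ⟨a, b, by rw [h, matS_eq]⟩
    · refine Or.inr (Or.inl ⟨thHom m μ, by simpa using hμ, ?_⟩)
      rw [h, matM_eq, pow_thHom]
    · exact Or.inr (Or.inr h)

open Pool.Agent.Helper2.Suz in
theorem result : ∀ m : ℕ, 1 ≤ m → ∃ (P L : Type) (_ : Finite P) (_ : Finite L)
    (_ : Membership P L) (_ : ProjectivePlane P L),
    ProjectivePlane.order P L = (2 ^ (2 * m + 1)) ^ 2 ∧
    ∃ Γ : Subgroup (Equiv.Perm P), IsCollineationGroup L Γ ∧ Nonempty (Γ ≃* SuzukiGroup m) ∧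
      ActsInOvalFashion L Γ := by
  intro m _
  have hθ := thHom_sq m
  have : CharP (Fq m) 2 := inferInstance
  have : Finite (Fq m) := inferInstance
  let θ := thHom m
  let _ := memI θ
  obtain ⟨hplane⟩ := exists_plane θ hθ
  have hcard := card_Pt θ
  have horder : ProjectivePlane.order (Pt θ) (Ln θ) = (2 ^ (2 * m + 1)) ^ 2 := by
    have i1 := Fintype.ofFinite (Pt θ)
    have h1 := ProjectivePlane.card_points (Pt θ) (Ln θ)
    rw [← Nat.card_eq_fintype_card, hcard, card_Fq] at h1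
    generalize ProjectivePlane.order (Pt θ) (Ln θ) = n at h1
    generalize (2 ^ (2 * m + 1)) ^ 2 = N at h1
    rcases lt_trichotomy n N with h | h | h
    · nlinarith
    · exact h
    · nlinarith
  refine ⟨Pt θ, Ln θ, inferInstance, inferInstance, memI θ, hplane, horder,
    (phi θ hθ).range, ?_, ?_, ?_⟩
  · rintro _ ⟨g, rfl⟩ l
    exact phi_line θ hθ g l
  · rw [suzuki_eq]
    exact ⟨(MonoidHom.ofInjective (phi_injective θ hθ)).symm⟩
  · refine ⟨none, oval θ, ?_, ⟨some (zR θ none), ?_⟩, ⟨Set.toFinite _, ?_, ?_⟩, ?_, ?_⟩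
    · rintro _ ⟨g, rfl⟩
      exact phi_none θ hθ g
    · ext p
      rw [oval_orbit θ hθ]
      constructor
      · rintro ⟨g, h⟩
        exact ⟨_, ⟨g, rfl⟩, h⟩
      · rintro ⟨_, ⟨g, rfl⟩, h⟩
        exact ⟨g, h⟩
    · rw [oval_ncard, horder, card_Fq]
    · rintro a ha b hb c hc hab hac hbc ⟨l, h1, h2, h3⟩
      exact oval_three θ hθ ha hb hc hab hac hbc l h1 h2 h3
    · intro p
      constructor
      · rintro rfl l hl
        exact oval_tangent θ hθ l hl
      · intro h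
        -- two different tangents through `none`
        have htan : ∀ o : O (Fq m), IsTangent (oval θ) (Sum.inl (mkS θ o) : Ln θ) := by
          intro o
          refine ⟨some (zR θ o), ⟨⟨o, rfl⟩, (inc_zR_S θ o o).mpr rfl⟩, ?_⟩
          rintro _ ⟨⟨o', rfl⟩, h2⟩
          have h3 := (inc_zR_S θ o' o).mp h2
          subst h3
          rfl
        have h1 := h _ (htan none)
        have h2 := h _ (htan (some (0, 0)))
        rcases p with _ | r
        · rfl
        · exfalso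
          have e1 : r.1.1 = ell θ none := h1
          have e2 : r.1.1 = ell θ (some (0, 0)) := h2
          have e3 := ell_injective θ (e1.symm.trans e2)
          simp at e3
    · intro a ha b hb c hc d hd hab hcd
      obtain ⟨g, h1, h2⟩ := oval_two θ hθ ha hb hc hd hab hcd
      exact ⟨_, ⟨g, rfl⟩, h1, h2⟩

end Pool.Agent.Results.MP_7e36da_co.SuzukiOval
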